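import Mathlib
import Pool.Agent.helper44.AX.SpecA
import Pool.Agent.helper67.RG.TB

/-!
# Project AX (MP_2e0e07_nt), block T: p-adic dependence by congruences (DET)

Rows `ax:T..`: file `Pool/Agent/<seat>/AX/XXX.lean`, `import Pool.Agent.helper46.AX.SpecT`,
namespace `Pool.Agent.AX`, `theorem XXX : XXX_stmt`. All rows are independent of each other.
-/

set_option autoImplicit false

namespace Pool.Agent.AX

open Matrix Polynomial Pool.Agent.GO Pool.Agent.AR Pool.Agent.RG Pool.Agent.HZ Pool.Agent.DS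
  MeasureTheory

universe u v

/-- ROW TNF (SHORT-MEDIUM; a linear form in `ρ` vanishes on a null set only).
Author: copy of `trace_ne_zero` (Pool/Agent/helper21/RG/TF.lean).
Proof. `A = alg ρ` is Noetherian (`finiteType_alg ρ`), stable under left translation
(`alg_lt ρ h hf`), its elements are continuous (`continuous_alg ρ hρ hf`); let `U` be the open
subgroup of `exists_component μ (alg ρ)` and `f g = tr (X * ρ g)`, in `alg ρ` (a linear combination of
`coef_mem ρ i j`). If `μ {f = 0} ≠ 0` then, as `Γ ⧸ U` is finite (`Subgroup.quotient_finite_of_isOpen`)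
and the cosets `{g | y⁻¹ * g ∈ U}`, `y = q.out`, cover `Γ`, one of them has
`μ ({f = 0} ∩ {g | y⁻¹ * g ∈ U}) ≠ 0` (`measure_iUnion_null`), so `f` vanishes on the coset:
`tr (X * ρ y * ρ u) = 0` for `u ∈ U`. The `ρ u` span the `2 × 2` matrices
(`span_top_of_irred (ρ.comp U.subtype) (hirr U hU)`), so `tr (X * ρ y * M) = 0` for all `M`, so
`X * ρ y = 0` (take `M = Matrix.single j i 1`), and `X = X * ρ y * ρ y⁻¹ = 0`. -/
def TNF_stmt : Prop := ∀ {Γ : Type} [Group Γ] [TopologicalSpace Γ] [IsTopologicalGroup Γ]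
    [CompactSpace Γ] [MeasurableSpace Γ] [BorelSpace Γ] (μ : Measure Γ) [μ.IsHaarMeasure]
    {Ω : Type v} [Field Ω] [IsAlgClosed Ω] [TopologicalSpace Ω] [IsTopologicalRing Ω] [T2Space Ω]
    (ρ : Γ →* Matrix (Fin 2) (Fin 2) Ω), Continuous ρ →
    (∀ U : Subgroup Γ, IsOpen (U : Set Γ) → Irred (fun u : U => ρ u)) →
    ∀ X : Matrix (Fin 2) (Fin 2) Ω, X ≠ 0 → μ {g | (X * ρ g).trace = 0} = 0

/-- ROW TCT (SHORT-MEDIUM, pure measure theory; counting).
Proof. Let `N : ℕ`. For `a < b < N` the set `{g | t (z a * g) = t (z b * g)}` is null, so for almost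
all `g` (`MeasureTheory.ae_all_iff`, countable) `t (z a * g) ≠ t (z b * g)` for all `a ≠ b`. For such
`g` at most `D` of the `a < N` have `z a * g ∈ C`: if `e : Fin (D + 1) ↪ ...` enumerates `D + 1` of them,
put `g' x = z (e x) * g`; `g' x * (g' y)⁻¹ = z (e x) * (z (e y))⁻¹ ∈ Z`, so `t (g' x) = t (g' y)` for
some `x ≠ y`, a contradiction. So `∑ a < N, C.indicator 1 (z a * g) ≤ D` for almost all `g`; integrate
(`lintegral_finsetSum`, `lintegral_mono_ae`, `measure_preimage_mul μ (z a) C`,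
`lintegral_indicator_one`): `N * μ C ≤ D * μ univ`, and `μ univ < ⊤` (compact). If `μ C ≠ 0` this
fails for large `N` (`ENNReal.exists_nat_mul_gt`). -/
def TCT_stmt : Prop := ∀ {Γ : Type} [Group Γ] [TopologicalSpace Γ] [IsTopologicalGroup Γ]
    [CompactSpace Γ] [MeasurableSpace Γ] [BorelSpace Γ] (μ : Measure Γ) [μ.IsHaarMeasure]
    {X : Type v} (t : Γ → X) (Z : Subgroup Γ) (z : ℕ → Γ) (D : ℕ) (C : Set Γ), (∀ a, z a ∈ Z) →
    (∀ a b, a ≠ b → μ {g | t (z a * g) = t (z b * g)} = 0) → IsClosed C →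
    (∀ g : Fin (D + 1) → Γ, (∀ x, g x ∈ C) → (∀ x y, g x * (g y)⁻¹ ∈ Z) →
      ∃ x y, x ≠ y ∧ t (g x) = t (g y)) → μ C = 0

/-- ROW TPC (SHORT; continuity of the measure).
Proof. The sets `K m = closure {s | ∃ v ∈ S, v ∉ T m ∧ s ∈ frob v}` are closed, so measurable, and
decreasing (`closure_mono`), with `μ (K m) ≥ δ`; `tendsto_measure_iInter_atTop`
(or `Antitone.measure_iInter`) gives `μ (⋂ m, K m) = ⨅ m, μ (K m) ≥ δ > 0`. -/
def TPC_stmt : Prop := ∀ {Γ : Type} {Place : Type u} [TopologicalSpace Γ] [MeasurableSpace Γ]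
    [BorelSpace Γ] (μ : Measure Γ) [IsFiniteMeasure μ] (frob : Place → Set Γ) (S : Set Place)
    (T : ℕ → Set Place), Positive μ frob S → (∀ m, (T m).Finite) → Monotone T →
    μ (⋂ m, closure {s | ∃ v ∈ S, v ∉ T m ∧ s ∈ frob v}) ≠ 0

/-- ROW TCG (SHORT, arithmetic).
Proof. `(q : ℤ_[q]) ^ e ∣ (x : ℤ_[q])` gives `(q : ℤ) ^ e ∣ x` (`PadicInt.pow_p_dvd_int_iff`). So
`q ^ M.factorization q ∣ x.natAbs` for all primes `q`, so `M ∣ x.natAbs`
(`Nat.factorization_le_iff_dvd` / `Nat.factorization_prime_le_iff_dvd`, `x = 0` separately). -/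
def TCG_stmt : Prop := ∀ (M : ℕ) (x : ℤ), 0 < M →
    (∀ (q : ℕ) [Fact q.Prime], q ∣ M → (q : ℤ_[q]) ^ M.factorization q ∣ (x : ℤ_[q])) →
    (M : ℤ) ∣ x

/-- ROW TAP (MEDIUM; approximation by Frobenius elements, all primes `q` dividing `M` at once).
Proof. The set `O` of all `s` with `‖tt ρ s - tt ρ g‖ < ε` and, for the finitely many primes `q ∣ M`,
all `i` and all `k ≤ n i`, `(V q i s).charpoly.coeff k - (V q i g).charpoly.coeff k ∈ q ^ e ℤ_[q]`
is a neighbourhood of `g`: `tt ρ` is continuous (`Continuous.matrix_trace`, `Continuous.matrix_det`,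
`(ρ s).det ≠ 0` since `ρ s * ρ s⁻¹ = 1`), the coefficients of the characteristic polynomial are
continuous functions of the matrix over a topological ring (`Matrix.charpoly.univ`, or
`Matrix.charpoly_coeff` ... ; e.g. `(A.charpoly).coeff k` is the value of the `MvPolynomial`
`(Matrix.charpoly.univ ℤ n).coeff k` at the entries, `MvPolynomial.continuous_eval`), and
`q ^ e ℤ_[q] = {x | ‖x‖ ≤ q ^ (-e)}` (`PadicInt.norm_le_pow_iff_mem_span_pow`) is a neighbourhood of `0`.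
For `k > n i` both coefficients are `0` (`Matrix.charpoly_natDegree_eq_dim`). The primes `q ∣ M`: use
`M.primeFactors` and `Fact` from membership (`haveI : Fact q.Prime := ⟨..⟩`; `Fact` is a
proposition, so instances agree). By `mem_closure_iff` there is `s ∈ O` of the set. -/
def TAP_stmt : Prop := ∀ {Γ : Type} {Place : Type u} [Group Γ] [TopologicalSpace Γ]
    [IsTopologicalGroup Γ] (frob : Place → Set Γ) {F : Type} [NormedField F] {r : ℕ}
    {n : Fin r → ℕ}
    (V : (q : ℕ) → [Fact q.Prime] → (i : Fin r) → Γ →* Matrix (Fin (n i)) (Fin (n i)) ℤ_[q])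
    (ρ : Γ →* Matrix (Fin 2) (Fin 2) F),
    (∀ (q : ℕ) [Fact q.Prime] (i : Fin r), Continuous (V q i)) → Continuous ρ →
    ∀ (S T : Set Place) (M : ℕ), 0 < M → ∀ (ε : ℝ), 0 < ε →
    ∀ g ∈ closure {s | ∃ v ∈ S, v ∉ T ∧ s ∈ frob v},
    ∃ v ∈ S, v ∉ T ∧ ∃ s ∈ frob v, ‖tt ρ s - tt ρ g‖ < ε ∧
      ∀ (q : ℕ) [Fact q.Prime], q ∣ M → ∀ (i : Fin r) (k : ℕ),
        (q : ℤ_[q]) ^ M.factorization q ∣
          (V q i s).charpoly.coeff k - (V q i g).charpoly.coeff k

/-- ROW TDC (MEDIUM; the closed set of positive measure). Hypotheses: TPC, TCG, TAP.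
Proof. Let `S`, `D` be as in `Determined` and for `m : ℕ` let `M m > 0` be the modulus for
`ε = 1 / (m + 1)`. For every prime `q` and `i` let `TV q i` be the finite set of bad places, `Tρ` that
of `ρ`; `B m = Tρ ∪ ⋃ q ∈ (M m).primeFactors, ⋃ i, TV q i` and `T m = ⋃ k ≤ m, B k`: finite,
monotone. `C = ⋂ m, closure {s | ∃ v ∈ S, v ∉ T m ∧ s ∈ frob v}` is closed with `μ C ≠ 0` (TPC). Let
`g x ∈ C`, `g x * (g y)⁻¹ ∈ kerAll V`: so `V q i (g x) = V q i (g y)` for all `q`, `i`. For every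
`m` choose (TAP with `M m`, `T m`, `ε = 1 / (m + 1)`) `v x`, `s x ∈ frob (v x)`. For `q ∣ M m`:
`(V q i (s x)).charpoly = (P i (v x)).map (Int.castRingHom ℤ_[q])`, and the differences for `x` and
`y` are divisible by `q ^ (M m).factorization q`, so `(M m : ℤ) ∣ (P i (v x)).coeff k - (P i (v y)).coeff k`
(TCG). So there are `x ≠ y` with `‖ι (tv Q (v x)) - ι (tv Q (v y))‖ ≤ 1 / (m + 1)`. As
`(ρ s).charpoly = (Q v).map ι` for `s = s x`, `v = v x` (`Matrix.charpoly_fin_two`: coefficient `1` is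
`- trace`, coefficient `0` is `det`), `ι (tv Q v) = tt ρ s`. So `‖tt ρ (g x) - tt ρ (g y)‖ ≤ 3 / (m + 1)`
for some `x ≠ y` depending on `m`. If `tt ρ (g x) ≠ tt ρ (g y)` for all `x ≠ y`, let `c > 0` be the
minimum of the `‖tt ρ (g x) - tt ρ (g y)‖` (finitely many pairs): a contradiction for `3 / (m + 1) < c`. -/
def TDC_stmt : Prop := TPC_stmt.{u} → TCG_stmt → TAP_stmt.{u} →
    ∀ {Γ : Type} {Place : Type u} {E : Type} [Group Γ] [TopologicalSpace Γ]
    [IsTopologicalGroup Γ] [CompactSpace Γ] [MeasurableSpace Γ] [BorelSpace Γ] (μ : Measure Γ)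
    [IsFiniteMeasure μ] (frob : Place → Set Γ) [Field E] {F : Type} [NormedField F] {r : ℕ}
    {n : Fin r → ℕ} (P : Fin r → Place → ℤ[X]) (Q : Place → E[X]) (ι : E →+* F)
    (V : (q : ℕ) → [Fact q.Prime] → (i : Fin r) → Γ →* Matrix (Fin (n i)) (Fin (n i)) ℤ_[q])
    (ρ : Γ →* Matrix (Fin 2) (Fin 2) F),
    (∀ (q : ℕ) [Fact q.Prime] (i : Fin r), Continuous (V q i)) → Continuous ρ →
    (∀ (q : ℕ) [Fact q.Prime] (i : Fin r), ∃ T : Set Place, T.Finite ∧ ∀ v ∉ T, ∀ s ∈ frob v,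
      (V q i s).charpoly = (P i v).map (Int.castRingHom ℤ_[q])) →
    Compatible frob ι Q ρ → Determined μ frob P Q ι →
    ∃ (D : ℕ) (C : Set Γ), IsClosed C ∧ μ C ≠ 0 ∧ ∀ g : Fin (D + 1) → Γ, (∀ x, g x ∈ C) →
      (∀ x y, g x * (g y)⁻¹ ∈ kerAll V) → ∃ x y, x ≠ y ∧ tt ρ (g x) = tt ρ (g y)

/-- ROW TEG (SHORT-MEDIUM, algebra; finitely many values for given characteristic polynomials).
Proof. Let `c` be the common polynomial `(dirSum V (g x)).charpoly = ∏ i, (V i (g x)).charpoly`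
(`charpoly_dirSum'`, Pool/Agent/helper21/FF/FF.lean), monic of degree `∑ i, n i` (dimension of the
index type of `dirSum V`), `R = c.roots.toFinset`, `#R ≤ ∑ i, n i`. `ad_roots (dirSum V) ρ U a b h (g x)`
(Pool/Agent/helper67/RG/TB.lean) gives `α`, `β`, `γ : Fin a → R`, `δ : Fin b → R` with `α + β = tr`,
`α * β = det`, `α / β * ∏ δ = ∏ γ`. The `δ k` are not `0` (`0` is not a root of the characteristic
polynomial of the invertible matrix `dirSum V (g x)`; or: if `∏ δ = 0` then `c` has the root `0`, ..).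
So `w = α / β = ∏ γ / ∏ δ` and `tt ρ (g x) = (α + β) ^ 2 / (α * β) = w + w⁻¹ + 2` depend only on
`(γ, δ)`, an element of a set with `#R ^ (a + b) < (∑ i, n i) ^ (a + b) + 1` elements: pigeonhole
(`Fintype.exists_ne_map_eq_of_card_lt` for `Fin (N ^ (a + b) + 1) → (Fin a → R) × (Fin b → R)`). -/
def TEG_stmt : Prop := ∀ {Γ : Type} [Group Γ] {Ω : Type v} [Field Ω] [IsAlgClosed Ω] {r : ℕ}
    {n : Fin r → ℕ} (V : (i : Fin r) → Γ →* Matrix (Fin (n i)) (Fin (n i)) Ω)
    (ρ : Γ →* Matrix (Fin 2) (Fin 2) Ω) (U : Subgroup Γ) (a b : ℕ),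
    AdSubquotient U ρ (tens (dirSum V) a b) →
    ∀ g : Fin ((∑ i, n i) ^ (a + b) + 1) → Γ, (∀ x, g x ∈ U) →
    (∀ x y i, (V i (g x)).charpoly = (V i (g y)).charpoly) →
    ∃ x y, x ≠ y ∧ tt ρ (g x) = tt ρ (g y)

/-- ROW TDA (MEDIUM; from a tensor construction to congruences). Hypothesis: TEG.
Proof. Let `U`, `a`, `b` be as in `AdArises`, `T` the finite union of the bad places of the `V i` and of
`ρ`, `S = {v | v ∉ T ∧ ∃ s ∈ frob v, s ∈ U}`, `D = (∑ i, n i) ^ (a + b)`. `S` is positive with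
`δ = μ U` (`IsOpen.measure_pos`): for `T'` finite `U ⊆ closure {s | ∃ v ∈ S, v ∉ T' ∧ s ∈ frob v}`
by `hd (O ∩ U) (T ∪ T')` for an open neighbourhood `O` of a point of `U`.
Let `ε > 0` and suppose that no `M = p ^ k` works: for every `k` there are `v x ∈ S`
(`x : Fin (D + 1)`) with `(p ^ k : ℤ) ∣ (P i (v x)).coeff m - (P i (v y)).coeff m` for all `x y i m` and
`ε < ‖ι (tv Q (v x)) - ι (tv Q (v y))‖` for `x ≠ y`. Choose `s x ∈ frob (v x) ∩ U`; then
`(V i (s x)).charpoly = (P i (v x)).map _`, `tt ρ (s x) = ι (tv Q (v x))` (`Matrix.charpoly_fin_two`),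
so `s` is in the set `K k` of all `g : Fin (D + 1) → Γ` with `g x ∈ U`,
`‖(V i (g x)).charpoly.coeff m - (V i (g y)).charpoly.coeff m‖ ≤ p ^ (-k)` for all `x y i m` and
`ε ≤ ‖tt ρ (g x) - tt ρ (g y)‖` for `x ≠ y`. The `K k` are closed (open subgroups are closed; the
coefficients of the characteristic polynomial are continuous: see row TAP; `tt ρ` is continuous),
decreasing and nonempty; `IsCompact.nonempty_iInter_of_sequence_nonempty_isCompact_isClosed` gives
`g` in all `K k`. Then `(V i (g x)).charpoly = (V i (g y)).charpoly` and `tt ρ (g x) ≠ tt ρ (g y)` for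
`x ≠ y`. Apply `j'` and `j` (injective; `Matrix.charpoly_map`; `tt (bc j ρ) g = j (tt ρ g)`): a
contradiction to TEG. -/
def TDA_stmt : Prop := TEG_stmt.{v} →
    ∀ {Γ : Type} {Place : Type u} {E : Type} [Group Γ] [TopologicalSpace Γ]
    [IsTopologicalGroup Γ] [CompactSpace Γ] [MeasurableSpace Γ] [BorelSpace Γ] (μ : Measure Γ)
    [μ.IsHaarMeasure] (frob : Place → Set Γ), DenseIn frob ⊤ Set.univ → ∀ [Field E] (p : ℕ)
    [Fact p.Prime] {F : Type} [NormedField F] {Ω : Type v} [Field Ω] [IsAlgClosed Ω] (j : F →+* Ω)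
    (j' : ℤ_[p] →+* Ω), Function.Injective j' → ∀ {r : ℕ}
    {n : Fin r → ℕ} (P : Fin r → Place → ℤ[X]) (Q : Place → E[X]) (ι : E →+* F)
    (V : (i : Fin r) → Γ →* Matrix (Fin (n i)) (Fin (n i)) ℤ_[p])
    (ρ : Γ →* Matrix (Fin 2) (Fin 2) F), (∀ i, Continuous (V i)) → Continuous ρ →
    (∀ i, ∃ T : Set Place, T.Finite ∧ ∀ v ∉ T, ∀ s ∈ frob v,
      (V i s).charpoly = (P i v).map (Int.castRingHom ℤ_[p])) → Compatible frob ι Q ρ →
    AdArises (fun i => mapHom j' (V i)) (bc j ρ) → Determined μ frob P Q ι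

/-- ROW TIN (SHORT-MEDIUM; infinitely many classes).
Proof. Let `A = adKer ρ`, normal (`adKer_normal`). `A` has infinite index: otherwise `SI_of_open ρ hρ hirr`
(Pool/Agent/helper85/AR/Ad.lean) gives `Irred (fun h : A => ρ h)`, but `A` acts by scalars and the line
`span {Pi.single 0 1}` is stable, not `⊥` and not `⊤`. As `Z ⊔ A` has finite index in `Γ`, `A` has
infinite index in `Z ⊔ A`, so the quotient `Z ⧸ (A.subgroupOf Z)` is infinite (second isomorphism
theorem; or: if the cosets `z A`, `z ∈ Z`, are finitely many, then `(Z ⊔ A) ⧸ A` is finite, as every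
element of `Z ⊔ A` is `z * a` (`Subgroup.mem_sup_of_normal_right`)). So there is an injection of `ℕ` into
`Z ⧸ A.subgroupOf Z` (`Infinite.natEmbedding`), choose representatives `z a` (`Quotient.out`). If
`ρ (z a) = c • ρ (z b)` then `ρ ((z b)⁻¹ * z a) = c • 1`, so `(z b)⁻¹ * z a ∈ A`, so `a = b`. -/
def TIN_stmt : Prop := ∀ {Γ : Type} [Group Γ] [TopologicalSpace Γ] [IsTopologicalGroup Γ]
    [CompactSpace Γ] {Ω : Type v} [Field Ω] [IsAlgClosed Ω] [TopologicalSpace Ω]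
    [IsTopologicalRing Ω] [T2Space Ω] (ρ : Γ →* Matrix (Fin 2) (Fin 2) Ω), Continuous ρ →
    (∀ U : Subgroup Γ, IsOpen (U : Set Γ) → Irred (fun u : U => ρ u)) →
    ∀ Z : Subgroup Γ, (Z ⊔ adKer ρ).FiniteIndex →
    ∃ z : ℕ → Γ, (∀ a, z a ∈ Z) ∧ ∀ a b, a ≠ b → ∀ c : Ω, ρ (z a) ≠ c • ρ (z b)

end Pool.Agent.AX
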