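import Pool.Agent.helper44.AX.SpecA

/-!
# Project AX (MP_2e0e07_nt): row MEA
-/

set_option autoImplicit false

namespace Pool.Agent.AX

open MeasureTheory

theorem MEA : MEA_stmt := by
  intro Γ _ _ _ _ _ _ μ _ X t Z hZ z hz hnull D C hC hprop
  classical
  by_contra hne
  have htop : (D : ENNReal) * μ Set.univ ≠ ⊤ :=
    ENNReal.mul_ne_top (ENNReal.natCast_ne_top D) isCompact_univ.measure_lt_top.ne
  obtain ⟨N, hN⟩ := ENNReal.exists_nat_mul_gt hne htop
  have hae : ∀ᵐ g ∂μ, ∀ a b, a ≠ b → t (z a * g) ≠ t (z b * g) := by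
    rw [ae_all_iff]
    intro a
    rw [ae_all_iff]
    intro b
    by_cases hab : a = b
    · exact Filter.Eventually.of_forall fun g h => absurd hab h
    · exact (measure_eq_zero_iff_ae_notMem.1 (hnull a b hab)).mono fun g hg _ => hg
  have hle : ∀ᵐ g ∂μ, (∑ a ∈ Finset.range N, C.indicator (1 : Γ → ENNReal) (z a * g)) ≤
      (D : ENNReal) := by
    filter_upwards [hae] with g hg
    have h1 : (∑ a ∈ Finset.range N, C.indicator (1 : Γ → ENNReal) (z a * g)) =
        (((Finset.range N).filter fun a => z a * g ∈ C).card : ENNReal) := by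
      rw [Finset.card_filter, Nat.cast_sum]
      refine Finset.sum_congr rfl fun a _ => ?_
      by_cases ha : z a * g ∈ C
      · rw [Set.indicator_of_mem ha, if_pos ha, Nat.cast_one, Pi.one_apply]
      · rw [Set.indicator_of_notMem ha, if_neg ha, Nat.cast_zero]
    rw [h1]
    refine Nat.cast_le.2 ?_
    by_contra hcard
    push Not at hcard
    let s := (Finset.range N).filter fun a => z a * g ∈ C
    let e : Fin (D + 1) ↪o ℕ := s.orderEmbOfCardLe hcard
    have he : ∀ a, z (e a) * g ∈ C := fun a =>
      (Finset.mem_filter.1 (Finset.orderEmbOfCardLe_mem s hcard a)).2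
    obtain ⟨a, b, hab, h⟩ := hprop (fun a => z (e a) * g) he (by
      intro a b
      have h2 := hZ.conj_mem ((z (e a))⁻¹ * z (e b)) (Z.mul_mem (Z.inv_mem (hz _)) (hz _)) g⁻¹
      have h3 : (z (e a) * g)⁻¹ * (z (e b) * g) =
          g⁻¹ * ((z (e a))⁻¹ * z (e b)) * (g⁻¹)⁻¹ := by group
      rw [h3]
      exact h2)
    exact hg (e a) (e b) (e.injective.ne hab) h
  have hint := lintegral_mono_ae hle
  have hmeas : ∀ a, Measurable fun g => C.indicator (1 : Γ → ENNReal) (z a * g) := fun a =>
    (measurable_one.indicator hC.measurableSet).comp (measurable_const_mul (z a))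
  rw [lintegral_finsetSum _ (fun a _ => hmeas a), lintegral_const] at hint
  have h1 : ∀ a, ∫⁻ g, C.indicator (1 : Γ → ENNReal) (z a * g) ∂μ = μ C := by
    intro a
    have h2 : (fun g => C.indicator (1 : Γ → ENNReal) (z a * g)) =
        ((fun g => z a * g) ⁻¹' C).indicator 1 := by
      ext g
      rfl
    have h3 : MeasurableSet ((fun g => z a * g) ⁻¹' C) :=
      (hC.preimage (continuous_const_mul (z a))).measurableSet
    rw [h2]
    exact (lintegral_indicator_one h3).trans (measure_preimage_mul μ (z a) C)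
  rw [Finset.sum_congr rfl fun a _ => h1 a, Finset.sum_const, Finset.card_range, nsmul_eq_mul]
    at hint
  exact absurd hN (not_lt.2 hint)

end Pool.Agent.AX
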