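import Mathlib
import Pool.Agent.helper44.AX.SpecG

/-!
# Project AX (MP_2e0e07_nt): lemmas for the assembly
-/

set_option autoImplicit false

namespace Pool.Agent.AX

open Matrix Polynomial Pool.Agent.GO Pool.Agent.AR Pool.Agent.RG Pool.Agent.HZ Pool.Agent.DS
  MeasureTheory NumberField

universe u v

theorem tt_bc {Γ F Ω : Type*} [Group Γ] [Field F] [Field Ω] (j : F →+* Ω)
    (ρ : Γ →* Matrix (Fin 2) (Fin 2) F) (g : Γ) : tt (bc j ρ) g = j (tt ρ g) := by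
  have h1 : bc j ρ g = j.mapMatrix (ρ g) := rfl
  rw [tt, tt, h1, map_div₀, map_pow, Matrix.trace_fin_two, Matrix.trace_fin_two, RingHom.map_det,
    map_add]
  rfl

theorem ad_bc {Γ F Ω : Type*} [Group Γ] [Field F] [Field Ω] (j : F →+* Ω)
    (ρ : Γ →* Matrix (Fin 2) (Fin 2) F) : adKer (bc j ρ) = adKer ρ := by
  ext g
  rw [mem_adKer, mem_adKer]
  have h1 : ∀ a b, bc j ρ g a b = j (ρ g a b) := fun a b => rfl
  constructor
  · rintro ⟨c, hc⟩
    have h00 : j (ρ g 0 0) = c := by rw [← h1, hc]; simp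
    have h11 : j (ρ g 1 1) = c := by rw [← h1, hc]; simp
    have h01 : j (ρ g 0 1) = 0 := by rw [← h1, hc]; simp
    have h10 : j (ρ g 1 0) = 0 := by rw [← h1, hc]; simp
    have e01 : ρ g 0 1 = 0 := (map_eq_zero j).1 h01
    have e10 : ρ g 1 0 = 0 := (map_eq_zero j).1 h10
    have e11 : ρ g 1 1 = ρ g 0 0 := j.injective (h11.trans h00.symm)
    refine ⟨ρ g 0 0, ?_⟩
    ext a b
    fin_cases a <;> fin_cases b <;> simp [e01, e10, e11]
  · rintro ⟨c, hc⟩
    refine ⟨j c, ?_⟩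
    ext a b
    rw [h1, hc]
    fin_cases a <;> fin_cases b <;> simp

theorem mem_kerAll {Γ : Type*} [Group Γ] {r : ℕ} {n : Fin r → ℕ}
    (V : (q : ℕ) → [Fact q.Prime] → (i : Fin r) → Γ →* Matrix (Fin (n i)) (Fin (n i)) ℤ_[q])
    (g : Γ) : g ∈ kerAll V ↔ ∀ (q : ℕ) [Fact q.Prime] (i : Fin r), V q i g = 1 := by
  simp only [kerAll, Subgroup.mem_iInf, kerV, MonoidHom.mem_ker]

theorem kerAll_normal {Γ : Type*} [Group Γ] {r : ℕ} {n : Fin r → ℕ}
    (V : (q : ℕ) → [Fact q.Prime] → (i : Fin r) → Γ →* Matrix (Fin (n i)) (Fin (n i)) ℤ_[q]) :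
    (kerAll V).Normal := by
  constructor
  intro g hg h
  rw [mem_kerAll] at hg ⊢
  intro q _ i
  rw [map_mul, map_mul, hg q i, mul_one, ← map_mul, mul_inv_cancel, map_one]

/-- the characteristic polynomials of `ρ` over `F` -/
theorem comp_descend {Γ Place E F Ω : Type*} [Group Γ] [Field E] [Field F] [Field Ω]
    (frob : Place → Set Γ) (Q : Place → E[X]) (ι : E →+* F) (j : F →+* Ω)
    (ρ : Γ →* Matrix (Fin 2) (Fin 2) F) (h : Compatible frob (j.comp ι) Q (bc j ρ)) :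
    ∃ T : Set Place, T.Finite ∧ ∀ v ∉ T, ∀ s ∈ frob v, (ρ s).charpoly = (Q v).map ι := by
  obtain ⟨T, hT, hc⟩ := h
  refine ⟨T, hT, fun v hv s hs => ?_⟩
  apply Polynomial.map_injective j j.injective
  rw [Polynomial.map_map, ← hc v hv s hs, ← Matrix.charpoly_map]
  rfl

section one

variable {Γ Place E : Type} [Group Γ] [TopologicalSpace Γ]
  [IsTopologicalGroup Γ] [CompactSpace Γ] [MeasurableSpace Γ] [BorelSpace Γ] (μ : Measure Γ)
  [μ.IsHaarMeasure] (frob : Place → Set Γ) [Field E] (p : ℕ) [Fact p.Prime] {F Ω : Type}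
  [NormedField F] [NormedAlgebra ℚ_[p] F] [FiniteDimensional ℚ_[p] F]
  [Field Ω] [IsAlgClosed Ω] [CharZero Ω] [Algebra F Ω] [TopologicalSpace Ω]
  [IsTopologicalRing Ω] [T2Space Ω] {r : ℕ} {n : Fin r → ℕ}

omit [TopologicalSpace Γ] [IsTopologicalGroup Γ] [CompactSpace Γ] [MeasurableSpace Γ]
  [BorelSpace Γ] [NormedAlgebra ℚ_[p] F] [FiniteDimensional ℚ_[p] F] in
theorem meet_eq (V : (i : Fin r) → Γ →* Matrix (Fin (n i)) (Fin (n i)) ℤ_[p])
    (ρ : Γ →* Matrix (Fin 2) (Fin 2) F) :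
    meet (fun i => mapHom (PadicInt.Coe.ringHom : ℤ_[p] →+* ℚ_[p]) (V i)) ρ =
      kerV V ⊔ adKer ρ := by
  ext g
  rw [mem_sup_adKer]
  have h1 : ∀ h : Γ, (∀ i, mapHom (PadicInt.Coe.ringHom : ℤ_[p] →+* ℚ_[p]) (V i) h = 1) ↔
      h ∈ kerV V := by
    intro h
    simp only [kerV, Subgroup.mem_iInf, MonoidHom.mem_ker]
    refine forall_congr' fun i => ?_
    constructor
    · intro hi
      have h2 : (V i h).map (PadicInt.Coe.ringHom : ℤ_[p] →+* ℚ_[p]) =
          (1 : Matrix (Fin (n i)) (Fin (n i)) ℤ_[p]).map (PadicInt.Coe.ringHom : ℤ_[p] →+* ℚ_[p]) := by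
        rw [Matrix.map_one _ (map_zero _) (map_one _)]
        exact hi
      exact Matrix.map_injective (fun a b hab => Subtype.ext hab) h2
    · intro hi
      show (V i h).map (PadicInt.Coe.ringHom : ℤ_[p] →+* ℚ_[p]) = 1
      rw [hi, Matrix.map_one _ (map_zero _) (map_one _)]
  constructor
  · rintro ⟨h, hV, c, hc⟩
    exact ⟨h, (h1 h).1 hV, c, hc⟩
  · rintro ⟨h, hV, c, hc⟩
    exact ⟨h, (h1 h).2 hV, c, hc⟩

omit [CharZero Ω] in
/-- The index is infinite iff the realisation arises. -/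
theorem index_zero_iff (P : Fin r → Place → E[X]) (Q : Place → E[X]) (ι : E →+* Ω)
    (V : (i : Fin r) → Γ →* Matrix (Fin (n i)) (Fin (n i)) ℤ_[p])
    (ρ : Γ →* Matrix (Fin 2) (Fin 2) F) (hV : ∀ i, Continuous (V i)) (hρ : Continuous ρ)
    (hR : IsRealisation frob P Q ι (fun i => mapHom (padicTo p F Ω) (V i))
      (bc (algebraMap F Ω) ρ)) :
    (kerV V ⊔ adKer ρ).index = 0 ↔
      AdArises (fun i => mapHom (padicTo p F Ω) (V i)) (bc (algebraMap F Ω) ρ) := by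
  have h1 := ar2 frob P Q p F Ω ι
    (fun i => mapHom (PadicInt.Coe.ringHom : ℤ_[p] →+* ℚ_[p]) (V i)) ρ (fun i => ?_) hρ hR
  · rw [meet_eq] at h1
    refine Iff.trans ?_ h1
    constructor
    · intro h0 h2
      exact h2.index_ne_zero h0
    · intro h0
      by_contra h2
      exact h0 ⟨h2⟩
  · refine continuous_matrix fun a b => ?_
    show Continuous fun g => ((V i g a b : ℤ_[p]) : ℚ_[p])
    exact continuous_subtype_val.comp ((hV i).matrix_elem a b)

omit [FiniteDimensional ℚ_[p] F] [TopologicalSpace Ω] [IsTopologicalRing Ω] [T2Space Ω] in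
/-- `ad⁰ ρ` in a tensor construction gives determination by congruences. -/
theorem determined_of_arises (hROT : ROT_stmt) (hCNV : CNV_stmt) (hd : DenseIn frob ⊤ Set.univ)
    (P : Fin r → Place → ℤ[X]) (Q : Place → E[X]) (ι : E →+* F)
    (V : (i : Fin r) → Γ →* Matrix (Fin (n i)) (Fin (n i)) ℤ_[p])
    (ρ : Γ →* Matrix (Fin 2) (Fin 2) F) (hV : ∀ i, Continuous (V i)) (hρ : Continuous ρ)
    (hcV : ∃ T : Set Place, T.Finite ∧ ∀ v ∉ T, ∀ s ∈ frob v, ∀ i,
      (V i s).charpoly = (P i v).map (Int.castRingHom ℤ_[p]))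
    (hcρ : ∃ T : Set Place, T.Finite ∧ ∀ v ∉ T, ∀ s ∈ frob v, (ρ s).charpoly = (Q v).map ι)
    (hA : AdArises (fun i => mapHom (padicTo p F Ω) (V i)) (bc (algebraMap F Ω) ρ)) :
    Determined μ frob P Q ι := by
  obtain ⟨U, D, hU, h⟩ := hROT Γ Ω r n _ _ hA
  refine hCNV Γ Place E F μ frob hd r n P Q ι p V ρ hV hρ hcV hcρ ⟨U, D, hU, ?_⟩
  intro g hg hc
  have hc' : ∀ a b i, (mapHom (padicTo p F Ω) (V i) (g a)).charpoly =
      (mapHom (padicTo p F Ω) (V i) (g b)).charpoly := by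
    intro a b i
    show ((padicTo p F Ω).mapMatrix (V i (g a))).charpoly =
      ((padicTo p F Ω).mapMatrix (V i (g b))).charpoly
    rw [RingHom.mapMatrix_apply, RingHom.mapMatrix_apply, Matrix.charpoly_map,
      Matrix.charpoly_map, hc a b i]
  obtain ⟨a, b, hab, h1⟩ := h g hg hc'
  refine ⟨a, b, hab, ?_⟩
  rw [tt_bc, tt_bc] at h1
  exact (algebraMap F Ω).injective h1

end one

theorem cross_le {Γ : Type*} [Group Γ] {r : ℕ} {n : Fin r → ℕ}
    (V : (q : ℕ) → [Fact q.Prime] → (i : Fin r) → Γ →* Matrix (Fin (n i)) (Fin (n i)) ℤ_[q])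
    {J : Type*} {F : J → Type*} [∀ j, Field (F j)] (ρ : ∀ j, Γ →* Matrix (Fin 2) (Fin 2) (F j))
    (j : J) : cross V ρ j ≤ kerAll V ⊔ adKer (ρ j) :=
  sup_le_sup_right inf_le_left _

end Pool.Agent.AX
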