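import Mathlib
import Pool.Agent.helper44.AX.Defs

/-!
# Project AX (MP_2e0e07_nt): use of the horizontal gap
-/

set_option autoImplicit false

namespace Pool.Agent.AX

open Matrix Polynomial Pool.Agent.GO Pool.Agent.AR Pool.Agent.RG Pool.Agent.HZ Pool.Agent.DS
  MeasureTheory NumberField

universe u v

section

variable {Γ : Type} {Place : Type u} {E : Type} [Group Γ] [TopologicalSpace Γ]
  [IsTopologicalGroup Γ] [CompactSpace Γ] [MeasurableSpace Γ] [BorelSpace Γ]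
  (μ : Measure Γ) [μ.IsHaarMeasure] (frob : Place → Set Γ) [Field E]
  {r : ℕ} {n : Fin r → ℕ}

/-- All realisations arise, or none. -/
theorem arise_dichotomy [NumberField E] (hd : DenseIn frob ⊤ Set.univ)
    (P : Fin r → Place → E[X]) (Q : Place → E[X]) (i₀ : Fin r)
    (hdet : ∀ v, P i₀ v = X - C ((Q v).coeff 0)) :
    AllArise.{v} μ frob n P Q ∨ NoneArises.{v} μ frob n P Q := by
  by_cases hrel : ∃ (S : Set Place) (Φ : (MvPolynomial (Fin r × ℕ) E)[X]), NonNegl μ frob S ∧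
      IsRelation P Q S Φ
  · left
    intro F' _ _ _ _ _ _ ι' V' ρ' hR'
    have hA := (ar1 μ frob hd P Q i₀ hdet ι' V' ρ' hR').1 hrel
    exact ⟨hA, fun q s w O hO => (clause1 μ frob P Q q s w O hO ι' V' ρ' hR').1
      ((ar1 μ frob hd P Q i₀ hdet ι' V' ρ' hR').2 hA)⟩
  · right
    intro F' _ _ _ _ _ _ ι' V' ρ' hR'
    have hno : ¬ AdArises V' ρ' := fun hA => hrel ((ar1 μ frob hd P Q i₀ hdet ι' V' ρ' hR').2 hA)
    exact ⟨hno, fun q s w O hO hA => hno ((ar1 μ frob hd P Q i₀ hdet ι' V' ρ' hR').1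
      ((clause1 μ frob P Q q s w O hO ι' V' ρ' hR').2 hA))⟩

/-- The horizontal gap for a family `I` of systems and a family `J` of primes. -/
theorem gap_use [NumberField E] {I J : Type} (hd : DenseIn frob ⊤ Set.univ)
    (P : I → Fin r → Place → E[X]) (Q : Place → E[X]) (i₀ : Fin r)
    (hdet : ∀ x v, P x i₀ v = X - C ((Q v).coeff 0)) (T₁ : Set Place) (hT₁ : T₁.Finite)
    (hfam : (Set.range fun x => fun v : {v : Place // v ∉ T₁} => fun i => P x i v.1).Finite ∨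
      HasBoundedRealisations frob n P T₁)
    (p : J → ℕ) (κ : J → Type) [∀ j, Field (κ j)] [∀ j, IsAlgClosed (κ j)]
    [∀ j, CharP (κ j) (p j)] (φ : ∀ j, 𝓞 E →+* κ j)
    (V' : I → ∀ j, (i : Fin r) → Γ →* Matrix (Fin (n i)) (Fin (n i)) (ZMod (p j)))
    (S : ∀ j, Γ →* Matrix (Fin 2) (Fin 2) (κ j))
    (hres : IsResidualFam frob (fun xj : I × J => P xj.1) Q (fun xj => p xj.2)
      (fun xj => κ xj.2) (fun xj => φ xj.2) (fun xj => V' xj.1 xj.2) (fun xj => S xj.2))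
    {F : Type v} [Field F] [IsAlgClosed F] [CharZero F] [TopologicalSpace F]
    [IsTopologicalRing F] [T2Space F] (ι : E →+* F)
    (V₀ : I → (i : Fin r) → Γ →* Matrix (Fin (n i)) (Fin (n i)) F)
    (ρ₀ : Γ →* Matrix (Fin 2) (Fin 2) F) (hR₀ : ∀ x, IsRealisation frob (P x) Q ι (V₀ x) ρ₀) :
    ∃ c : ℕ, ∀ x, (AllArise.{v} μ frob n (P x) Q ∧ ∀ j, adDegree (V' x j) (S j) ≤ c) ∨
      (NoneArises.{v} μ frob n (P x) Q ∧
        ∀ j, c < p j → ∃ g ∈ kerV (V' x j), g ∉ adKer (S j)) := by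
  have hfin : (Set.range fun x => fun v : {v : Place // v ∉ T₁} => fun i =>
      P x i v.1).Finite := hfam.elim (fun h => h) (finite_classes frob hd P T₁ hT₁)
  have hfin' : (Set.range fun xj : I × J => fun v : {v : Place // v ∉ T₁} => fun i =>
      P xj.1 i v.1).Finite := by
    refine hfin.subset ?_
    rintro _ ⟨xj, rfl⟩
    exact ⟨xj.1, rfl⟩
  obtain ⟨c, B, h⟩ := gap2 μ frob fwd_all bwd_all hd (fun xj : I × J => P xj.1) Q i₀
    (fun xj v => hdet xj.1 v) T₁ hT₁ hfin' (fun xj => p xj.2) (fun xj => κ xj.2)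
    (fun xj => φ xj.2) (fun xj => V' xj.1 xj.2) (fun xj => S xj.2) hres ι (fun xj => V₀ xj.1) ρ₀
    (fun xj => hR₀ xj.1)
  refine ⟨c + B, fun x => ?_⟩
  rcases arise_dichotomy.{u, v} μ frob hd (P x) Q i₀ (hdet x) with h1 | h1
  · refine Or.inl ⟨h1, fun j => ?_⟩
    rcases h (x, j) with ⟨h2, _⟩ | ⟨_, h3⟩
    · exact le_trans h2 (Nat.le_add_left _ _)
    · exact absurd (h1 F ι (V₀ x) ρ₀ (hR₀ x)).1 (h3 F ι (V₀ x) ρ₀ (hR₀ x)).1
  · refine Or.inr ⟨h1, fun j hj => ?_⟩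
    rcases h (x, j) with ⟨_, h3⟩ | ⟨h2, _⟩
    · exact absurd (h3 F ι (V₀ x) ρ₀ (hR₀ x)).1 (h1 F ι (V₀ x) ρ₀ (hR₀ x)).1
    · by_contra hcon
      push Not at hcon
      have h3 : adDegree (V' x j) (S j) = 1 := Subgroup.relIndex_eq_one.2 hcon
      have h4 : p j ≤ c * adDegree (V' x j) (S j) := h2
      rw [h3, mul_one] at h4
      omega

end

end Pool.Agent.AX
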