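import Mathlib
import Pool.Agent.helper46.AX.Core
import Pool.Agent.helper46.AX.GapUse

/-!
# Project AX (MP_2e0e07_nt): the adelic dichotomy, assembly
-/

set_option autoImplicit false

namespace Pool.Agent.AX

open Matrix Polynomial Pool.Agent.GO Pool.Agent.AR Pool.Agent.RG Pool.Agent.HZ Pool.Agent.DS
  MeasureTheory NumberField

universe u v

theorem MAIN1 (hCRA : CRA_stmt) (hCRB : CRB_stmt) (hPRD : PRD_stmt) : MAIN1_stmt := by
  intro Γ Place E _ _ _ _ _ _ μ _ frob hd _ _ r n I J _ P Q i₀ hdet T₁ hT₁ hfam V hV hcV p _ hp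
    F Ω κ _ _ _ _ _ _ _ _ _ _ _ _ _ ι red hred ρ hρ hint hR S hS J₀ hJ₀ φ hres
  classical
  obtain ⟨j₁⟩ : Nonempty J := inferInstance
  have hfam' : (Set.range fun x => fun v : {v : Place // v ∉ T₁} => fun i =>
      (P x i v.1).map (Int.castRingHom E)).Finite ∨
      HasBoundedRealisations frob n (fun x i v => (P x i v).map (Int.castRingHom E)) T₁ := by
    refine hfam.imp (fun h => ?_) (fun h => h)
    refine (h.image fun f => fun v i => (f v i).map (Int.castRingHom E)).subset ?_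
    rintro _ ⟨x, rfl⟩
    exact ⟨_, ⟨x, rfl⟩, rfl⟩
  obtain ⟨c, hc⟩ := gap_use.{0, 0} μ frob (J := {j : J // j ∉ J₀}) hd
    (fun x i v => (P x i v).map (Int.castRingHom E)) Q i₀ hdet T₁ hT₁ hfam'
    (fun j => p j.1) (fun j => κ j.1) (fun j => φ j.1)
    (fun x j i => mapHom (PadicInt.toZMod (p := p j.1)) (V x (p j.1) i)) (fun j => S j.1) hres
    ((algebraMap (F j₁) (Ω j₁)).comp (ι j₁))
    (fun x i => mapHom (padicTo (p j₁) (F j₁) (Ω j₁)) (V x (p j₁) i))
    (bc (algebraMap (F j₁) (Ω j₁)) (ρ j₁)) (fun x => hR x j₁)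
  let m : ℕ := 3 + ∑ i, n i
  have hm3 : 3 ≤ m := Nat.le_add_right _ _
  have hmn : ∀ i, n i ≤ m := fun i =>
    (Finset.single_le_sum (f := n) (fun _ _ => Nat.zero_le _) (Finset.mem_univ i)).trans
      (Nat.le_add_left _ _)
  refine ⟨c + (2 * m.factorial + 1) + ∑ j ∈ hJ₀.toFinset, p j, fun x => ?_⟩
  rcases hc x with ⟨h, hB⟩ | ⟨h, h'⟩
  · left
    refine ⟨h, fun j hj => (hB ⟨j, hj⟩).trans (by omega), fun j => ?_⟩
    exact (index_zero_iff frob (p j) _ Q _ (V x (p j)) (ρ j) (hV x (p j)) (hρ j) (hR x j)).2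
      (h (Ω j) _ _ _ (hR x j)).1
  · right
    have hfi : ∀ j, (cross (V x) ρ j).FiniteIndex := by
      intro j
      have hA := (h (Ω j) _ _ _ (hR x j)).1
      have h0 : (kerV (V x (p j)) ⊔ adKer (ρ j)).index ≠ 0 := fun h0 =>
        hA ((index_zero_iff frob (p j) _ Q _ (V x (p j)) (ρ j) (hV x (p j)) (hρ j)
          (hR x j)).1 h0)
      exact hCRB Γ r n (V x) (hV x) J p hp F κ red hred ρ hρ hint j (Ω j)
        (SI_of_open _ (hR x j).cont (hR x j).irr) ⟨h0⟩
    refine ⟨h, fun j => ⟨(hfi j).index_ne_zero, fun hC => ?_⟩, fun g hg => ?_⟩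
    · have hj : j ∉ J₀ := by
        intro hj
        have h1 : p j ≤ ∑ j ∈ hJ₀.toFinset, p j :=
          Finset.single_le_sum (f := p) (fun _ _ => Nat.zero_le _) (by
            rw [Set.Finite.mem_toFinset]; exact hj)
        omega
      have h1 := h' ⟨j, hj⟩ (by show c < p j; omega)
      exact (hCRA Γ r n (V x) (hV x) J p hp F κ red hred ρ hρ hint m hm3 hmn j (S j) (hS j)
        (by omega) (hres.openρ (x, ⟨j, hj⟩)) (hres.irr (x, ⟨j, hj⟩)) (hres.ord (x, ⟨j, hj⟩))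
        h1).2
    · exact hPRD Γ r n (V x) (hV x) J F ρ hρ g hg

end Pool.Agent.AX
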