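import Pool.Agent.helper64.AX.AllR
import Pool.Agent.helper64.AX.CRA
import Pool.Agent.helper64.AX.LWC
import Pool.Agent.helper60.AX.CRB
import Pool.Agent.helper44.AX.FIX
import Pool.Agent.helper44.AX.YA
import Pool.Agent.helper66.AX.LFT
import Pool.Agent.helper66.AX.LSL
import Pool.Agent.helper14.AX.SIM
import Pool.Agent.helper44.AX.YVP
import Pool.Agent.helper84.AX.PRD
import Pool.Agent.helper46.AX.Main1

/-!
# Project AX (MP_2e0e07_nt): the adelic dichotomy, all rows together
-/

set_option autoImplicit false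

namespace Pool.Agent.AX

theorem LFT_all : LFT_stmt := LFT LSL

theorem FIX_all : FIX_stmt := FIX SIM LPC_all LWC

theorem CRA_all : CRA_stmt := CRA RES_all LFT_all YV YP YA

theorem CRB_all : CRB_stmt := CRB FIX_all YV YA

theorem MAIN1_all : MAIN1_stmt := MAIN1 CRA_all CRB_all PRD

end Pool.Agent.AX
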