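import Pool.Agent.helper44.AX.SpecA
import Pool.Agent.helper21.AX.TAP

/-!
# Project AX (MP_2e0e07_nt): row CNV
-/

set_option autoImplicit false

namespace Pool.Agent.AX

open Matrix Polynomial Pool.Agent.GO Pool.Agent.AR Pool.Agent.RG Pool.Agent.HZ Pool.Agent.DS
  MeasureTheory

/-- the value of `tt` at a Frobenius element -/
theorem CNV_tt {E F : Type*} [Field E] [Field F] {Γ Place : Type*} [Group Γ] (Q : Place → E[X])
    (ι : E →+* F) (ρ : Γ →* Matrix (Fin 2) (Fin 2) F) (v : Place) (s : Γ)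
    (h : (ρ s).charpoly = (Q v).map ι) : tt ρ s = ι (tv Q v) := by
  have h1 : ι ((Q v).coeff 1) = -(ρ s).trace := by
    rw [← Polynomial.coeff_map, ← h, Matrix.charpoly_fin_two]
    simp [coeff_X, coeff_C]
  have h0 : ι ((Q v).coeff 0) = (ρ s).det := by
    rw [← Polynomial.coeff_map, ← h, Matrix.charpoly_fin_two]
    simp [coeff_X, coeff_C]
  rw [tt, tv, map_div₀, map_pow, h1, h0, neg_sq]

theorem CNV : CNV_stmt := by
  intro Γ Place E F _ _ _ _ _ _ μ _ _ _ frob hd r n P Q ι p _ V ρ hV hρ hcV hcρ hU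
  classical
  obtain ⟨U, D, hU, hprop⟩ := hU
  obtain ⟨T1, hT1, hc1⟩ := hcV
  obtain ⟨T2, hT2, hc2⟩ := hcρ
  have hUc : IsClosed (U : Set Γ) := Subgroup.isClosed_of_isOpen U hU
  refine ⟨{v | v ∉ T1 ∪ T2 ∧ ∃ s ∈ frob v, s ∈ U}, D, ⟨μ (U : Set Γ),
    hU.measure_pos μ ⟨1, U.one_mem⟩, fun T hT => measure_mono ?_⟩, ?_⟩
  · intro g hg
    rw [mem_closure_iff]
    intro O hO hgO
    obtain ⟨v, -, hvT, s, hs, -, hsO⟩ := hd (O ∩ U) (T ∪ (T1 ∪ T2)) (hO.inter hU)
      ⟨g, ⟨hgO, hg⟩, Subgroup.mem_top g⟩ (hT.union (hT1.union hT2))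
    rw [Set.mem_union, not_or] at hvT
    exact ⟨s, hsO.1, v, ⟨hvT.2, s, hs, hsO.2⟩, hvT.1, hs⟩
  · intro ε hε
    by_contra hcon
    push Not at hcon
    let K : ℕ → Set (Fin (D + 1) → Γ) := fun k => {g | (∀ a, g a ∈ U) ∧
      (∀ a b i m, ‖(V i (g a)).charpoly.coeff m - (V i (g b)).charpoly.coeff m‖ ≤
        (p : ℝ) ^ (-(k : ℤ))) ∧ ∀ a b, a ≠ b → ε ≤ ‖tt ρ (g a) - tt ρ (g b)‖}
    have hp1 : (1 : ℝ) < p := by exact_mod_cast (Fact.out : p.Prime).one_lt
    have hp0 : (0 : ℝ) < p := by linarith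
    have hcoef : ∀ a i m, Continuous fun g : Fin (D + 1) → Γ => (V i (g a)).charpoly.coeff m :=
      fun a i m => (TAP_coeff m).comp ((hV i).comp (continuous_apply a))
    have htt : ∀ a, Continuous fun g : Fin (D + 1) → Γ => tt ρ (g a) :=
      fun a => (TAP_tt ρ hρ).comp (continuous_apply a)
    have hKc : ∀ k, IsClosed (K k) := by
      intro k
      have e : K k = (⋂ a, {g | g a ∈ U}) ∩
          ((⋂ a, ⋂ b, ⋂ i, ⋂ m, {g | ‖(V i (g a)).charpoly.coeff m -
            (V i (g b)).charpoly.coeff m‖ ≤ (p : ℝ) ^ (-(k : ℤ))}) ∩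
          ⋂ a, ⋂ b, ⋂ (_ : a ≠ b), {g | ε ≤ ‖tt ρ (g a) - tt ρ (g b)‖}) := by
        ext g
        simp only [K, Set.mem_inter_iff, Set.mem_iInter, Set.mem_ofPred_eq]
      rw [e]
      refine (isClosed_iInter fun a => hUc.preimage (continuous_apply a)).inter
        ((isClosed_iInter fun a => isClosed_iInter fun b => isClosed_iInter fun i =>
          isClosed_iInter fun m => ?_).inter
        (isClosed_iInter fun a => isClosed_iInter fun b => isClosed_iInter fun _ => ?_))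
      · exact isClosed_le ((hcoef a i m).sub (hcoef b i m)).norm continuous_const
      · exact isClosed_le continuous_const ((htt a).sub (htt b)).norm
    have hKm : ∀ k, K (k + 1) ⊆ K k := by
      rintro k g ⟨h1, h2, h3⟩
      refine ⟨h1, fun a b i m => (h2 a b i m).trans ?_, h3⟩
      exact zpow_le_zpow_right₀ hp1.le (by push_cast; omega)
    have hKn : ∀ k, (K k).Nonempty := by
      intro k
      obtain ⟨v, hv, hcong, hdist⟩ := hcon (p ^ k) (pow_pos (Fact.out : p.Prime).pos k)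
      have hv' : ∀ a, ∃ s, s ∈ frob (v a) ∧ s ∈ U := fun a => by
        obtain ⟨_, s, hs, hsU⟩ := hv a
        exact ⟨s, hs, hsU⟩
      choose s hs hsU using hv'
      have hvT : ∀ a, v a ∉ T1 ∪ T2 := fun a => (hv a).1
      refine ⟨s, hsU, ?_, ?_⟩
      · intro a b i m
        rw [hc1 (v a) (fun h => hvT a (Or.inl h)) (s a) (hs a) i,
          hc1 (v b) (fun h => hvT b (Or.inl h)) (s b) (hs b) i, Polynomial.coeff_map,
          Polynomial.coeff_map, ← map_sub, PadicInt.norm_le_pow_iff_mem_span_pow,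
          Ideal.mem_span_singleton]
        obtain ⟨c, hc⟩ := hcong a b i m
        rw [hc]
        refine ⟨(c : ℤ_[p]), ?_⟩
        simp
      · intro a b hab
        rw [CNV_tt Q ι ρ (v a) (s a) (hc2 (v a) (fun h => hvT a (Or.inr h)) (s a) (hs a)),
          CNV_tt Q ι ρ (v b) (s b) (hc2 (v b) (fun h => hvT b (Or.inr h)) (s b) (hs b))]
        exact (hdist a b hab).le
    obtain ⟨g, hg⟩ := IsCompact.nonempty_iInter_of_sequence_nonempty_isCompact_isClosed K hKm hKn
      (hKc 0).isCompact hKc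
    rw [Set.mem_iInter] at hg
    have hch : ∀ a b i, (V i (g a)).charpoly = (V i (g b)).charpoly := by
      intro a b i
      ext m
      have h1 : ∀ k : ℕ, ‖(V i (g a)).charpoly.coeff m - (V i (g b)).charpoly.coeff m‖ ≤
          ((p : ℝ)⁻¹) ^ k := by
        intro k
        have h2 := (hg k).2.1 a b i m
        rwa [_root_.zpow_neg, zpow_natCast, ← inv_pow] at h2
      have h2 := ge_of_tendsto' (tendsto_pow_atTop_nhds_zero_of_lt_one (inv_nonneg.2 hp0.le)
        (inv_lt_one_of_one_lt₀ hp1)) h1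
      have h3 : ‖(V i (g a)).charpoly.coeff m - (V i (g b)).charpoly.coeff m‖ = 0 :=
        le_antisymm h2 (norm_nonneg _)
      rwa [norm_eq_zero, sub_eq_zero] at h3
    obtain ⟨a, b, hab, h⟩ := hprop g (hg 0).1 hch
    have h1 := (hg 0).2.2 a b hab
    rw [h, sub_self, norm_zero] at h1
    linarith

end Pool.Agent.AX
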