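import Mathlib
import Pool.Agent.helper46.AX.Core
import Pool.Agent.helper46.AX.SpecT

/-!
# Project AX (MP_2e0e07_nt): no determination by congruences
-/

set_option autoImplicit false

namespace Pool.Agent.AX

open Matrix Polynomial Pool.Agent.GO Pool.Agent.AR Pool.Agent.RG Pool.Agent.HZ Pool.Agent.DS
  MeasureTheory NumberField

universe u v

/-- If the image of `kerAll V` under `ad ρ` is of finite index, then `t_v` is not determined by
congruences between the `P i v`. -/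
theorem not_determined (hNUL : NUL_stmt) (hMEA : MEA_stmt) (hCLO : CLO_stmt)
    (hTIN : TIN_stmt.{0})
    {Γ Place E F Ω : Type} [Group Γ] [TopologicalSpace Γ]
    [IsTopologicalGroup Γ] [CompactSpace Γ] [MeasurableSpace Γ] [BorelSpace Γ] (μ : Measure Γ)
    [μ.IsHaarMeasure] (frob : Place → Set Γ) [Field E] [NormedField F]
    [Field Ω] [IsAlgClosed Ω] [CharZero Ω] [TopologicalSpace Ω] [IsTopologicalRing Ω] [T2Space Ω]
    (j : F →+* Ω) {r : ℕ} {n : Fin r → ℕ} (P : Fin r → Place → ℤ[X]) (Q : Place → E[X])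
    (ι : E →+* F)
    (V : (q : ℕ) → [Fact q.Prime] → (i : Fin r) → Γ →* Matrix (Fin (n i)) (Fin (n i)) ℤ_[q])
    (ρ : Γ →* Matrix (Fin 2) (Fin 2) F)
    (hV : ∀ (q : ℕ) [Fact q.Prime] (i : Fin r), Continuous (V q i)) (hρ : Continuous ρ)
    (hcV : ∀ (q : ℕ) [Fact q.Prime], ∃ T : Set Place, T.Finite ∧ ∀ v ∉ T, ∀ s ∈ frob v, ∀ i,
      (V q i s).charpoly = (P i v).map (Int.castRingHom ℤ_[q]))
    (hcρ : ∃ T : Set Place, T.Finite ∧ ∀ v ∉ T, ∀ s ∈ frob v, (ρ s).charpoly = (Q v).map ι)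
    (hjρ : Continuous (bc j ρ))
    (hirr : ∀ U : Subgroup Γ, IsOpen (U : Set Γ) → Irred (fun u : U => bc j ρ u))
    (hfi : (kerAll V ⊔ adKer ρ).FiniteIndex) : ¬ Determined μ frob P Q ι := by
  intro hdet
  obtain ⟨C, D, hC, hC0, hCD⟩ := hCLO Γ Place E F μ frob r n P Q ι V ρ hV hρ hcV hcρ hdet
  rw [← ad_bc j] at hfi
  obtain ⟨z, hz, hzz⟩ := hTIN (bc j ρ) hjρ hirr (kerAll V) hfi
  refine hC0 (hMEA Γ μ Ω (fun g => tt (bc j ρ) g) (kerAll V) (kerAll_normal V) z hz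
    (fun a b hab => ?_) D C hC ?_)
  · exact hNUL Γ μ Ω (bc j ρ) hjρ (SI_of_open _ hjρ hirr) (z a) (z b) (hzz a b hab)
  · intro g hg hgg
    obtain ⟨x, y, hxy, h⟩ := hCD g hg hgg
    exact ⟨x, y, hxy, by rw [tt_bc, tt_bc, h]⟩

end Pool.Agent.AX
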